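import Mathlib

namespace Pool.Agent.Results.MP_59cc96_an.Coincide

open Finset Filter Topology

def P (𝕜 : Type) {E : Type} [RCLike 𝕜] [NormedAddCommGroup E] [NormedSpace 𝕜 E] (x : ℕ → E)
    (n : ℕ) : Submodule 𝕜 E :=
  Submodule.span 𝕜 (x '' Set.Iio n)

def S {𝕜 E : Type} [RCLike 𝕜] [NormedAddCommGroup E] [NormedSpace 𝕜 E] (x : ℕ → E) (α : ℕ → 𝕜)
    (n : ℕ) : P 𝕜 x n :=
  ⟨∑ i ∈ range n, α i • x i, Submodule.sum_mem _ fun i hi =>
    Submodule.smul_mem _ _ (Submodule.subset_span ⟨i, mem_range.1 hi, rfl⟩)⟩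

theorem result (𝕜 E : Type) [RCLike 𝕜] [NormedAddCommGroup E] [NormedSpace 𝕜 E] (x : ℕ → E)
    (f : ℕ → E →L[𝕜] 𝕜) (bi : ∀ i j, f i (x j) = if i = j then 1 else 0)
    (v : ∀ n, P 𝕜 x n →ₗ[𝕜] P 𝕜 x n)
    (hv : ∀ y : E, Tendsto (fun n => (v n (S x (fun i => f i y) n) : E)) atTop (𝓝 y)) :
    ∃ w : ∀ n, P 𝕜 x n →ₗ[𝕜] P 𝕜 x n,
      (∀ i, Tendsto (fun n => (w n (S x (fun j => if j = i then 1 else 0) n) : E)) atTop
        (𝓝 (x i))) ∧
      ∀ y : E, ∃! α : ℕ → 𝕜, Tendsto (fun n => (w n (S x α n) : E)) atTop (𝓝 y) := by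
  have co : ∀ (α : ℕ → 𝕜) n j, j < n → f j (S x α n : E) = α j := fun α n j h => by
    simp [S, map_sum, bi, h]
  let s : ∀ k, E →ₗ[𝕜] P 𝕜 x k := fun k =>
    { toFun := fun y => S x (fun i => f i y) k
      map_add' := fun y z => Subtype.ext (by simp [S, add_smul, sum_add_distrib])
      map_smul' := fun c y => Subtype.ext (by simp [S, smul_sum, smul_smul]) }
  let U : ℕ → E →ₗ[𝕜] E := fun k => (P 𝕜 x k).subtype ∘ₗ v k ∘ₗ s k
  let ι : ℕ → ℕ := fun k => (Nat.unpair k).1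
  let c : ℕ → 𝕜 := fun i => ((‖f i‖ + 1 : ℝ) : 𝕜)⁻¹
  let W : ℕ → E →ₗ[𝕜] E := fun n => U (n / 2) + if n % 2 = 1 then
    (c (ι (n / 2)) • (f (ι (n / 2)) : E →ₗ[𝕜] 𝕜) ∘ₗ (LinearMap.id - U (n / 2))).smulRight (x 0)
    else 0
  have hW : ∀ n, ∀ y ∈ P 𝕜 x n, W n y ∈ P 𝕜 x n := fun n y _ => by
    refine Submodule.add_mem _ (Submodule.span_mono (Set.image_mono (Set.Iio_subset_Iio
      (Nat.div_le_self n 2))) (v (n / 2) (s (n / 2) y)).2) ?_
    split_ifs with h
    · exact Submodule.smul_mem _ _ (Submodule.subset_span ⟨0, show 0 < n by omega, rfl⟩)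
    · exact Submodule.zero_mem _
  have e : ∀ (α : ℕ → 𝕜) n, W n (S x α n) = (v (n / 2) (S x α (n / 2)) : E) + if n % 2 = 1 then
      (c (ι (n / 2)) * (α (ι (n / 2)) - f (ι (n / 2)) (v (n / 2) (S x α (n / 2))))) • x 0
      else 0 := fun α n => by
    have e1 : U (n / 2) (S x α n) = v (n / 2) (S x α (n / 2)) :=
      congrArg (fun z => (v (n / 2) z : E)) (Subtype.ext (sum_congr (s₁ := range (n / 2)) rfl
        fun j hj => congrArg (· • x j)
          (co α n j ((mem_range.1 hj).trans_le (Nat.div_le_self n 2)))))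
    simp only [W, LinearMap.add_apply, e1]
    split_ifs with h
    · have := Nat.unpair_left_le (n / 2)
      simp [e1, co α n (ι (n / 2)) (show (Nat.unpair (n / 2)).1 < n by omega)]
    · rfl
  have half : Tendsto (fun n : ℕ => n / 2) atTop atTop :=
    tendsto_atTop_atTop.2 fun b => ⟨2 * b, fun a h => by omega⟩
  have ex : ∀ y : E, Tendsto (fun n => W n (S x (fun i => f i y) n)) atTop (𝓝 y) := fun y => by
    simp only [e]
    have h1 := (hv y).comp half
    have h2 := ((tendsto_iff_norm_sub_tendsto_zero.1 h1).mul_const ‖x 0‖)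
    rw [zero_mul] at h2
    refine (add_zero y ▸ h1.add (squeeze_zero_norm (fun n => ?_) h2) :)
    split_ifs
    · rw [norm_smul, norm_mul, ← map_sub, norm_inv, RCLike.norm_ofReal,
        abs_of_pos (by positivity), Function.comp, norm_sub_rev _ y]
      refine mul_le_mul_of_nonneg_right ?_ (norm_nonneg _)
      rw [inv_mul_le_iff₀ (by positivity)]
      exact (ContinuousLinearMap.le_opNorm _ _).trans
        (mul_le_mul_of_nonneg_right (by linarith) (norm_nonneg _))
    · rw [norm_zero]; positivity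
  refine ⟨fun n => (W n).restrict (hW n), fun i => by have := ex (x i); simp only [bi] at this; exact this,
    fun y => ⟨fun i => f i y, ex y, fun α (h : Tendsto (fun n => W n (S x α n)) _ _) => ?_⟩⟩
  have h1 := h.comp (tendsto_atTop_atTop.2 fun b => ⟨b, fun a h => by omega⟩ :
    Tendsto (fun k : ℕ => 2 * k) atTop atTop)
  have h2 := h.comp (tendsto_atTop_atTop.2 fun b => ⟨b, fun a h => by omega⟩ :
    Tendsto (fun k : ℕ => 2 * k + 1) atTop atTop)
  have a1 : ∀ k, 2 * k / 2 = k := fun k => by omega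
  have a2 : ∀ k, (2 * k + 1) / 2 = k := fun k => by omega
  have a3 : ∀ k, ¬ 2 * k % 2 = 1 := fun k => by omega
  have a4 : ∀ k, (2 * k + 1) % 2 = 1 := fun k => by omega
  let u : ℕ → E := fun k => v k (S x α k)
  have e' : ∀ n, W n (S x α n) = u (n / 2) + if n % 2 = 1 then
    (c (ι (n / 2)) * (α (ι (n / 2)) - f (ι (n / 2)) (u (n / 2)))) • x 0 else 0 := e α
  simp only [Function.comp_def, e', a1, a2, a3, a4, if_true, if_false, add_zero] at h1 h2
  funext i
  have pr : Tendsto (Nat.pair i) atTop atTop :=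
    tendsto_atTop_mono (Nat.right_le_pair i) tendsto_id
  have h3 := (((f 0).continuous.tendsto _).comp (h2.sub h1)).comp pr
  have h4 := ((((f i).continuous.tendsto _).comp (h1.comp pr)).const_sub (α i)).const_mul (c i)
  simp only [Function.comp_def, add_sub_cancel_left, map_smul, bi, if_true, smul_eq_mul, mul_one,
    sub_self, map_zero, ι, Nat.unpair_pair] at h3 h4
  exact sub_eq_zero.1 ((mul_eq_zero.1 (tendsto_nhds_unique h4 h3)).resolve_left
    (inv_ne_zero (RCLike.ofReal_ne_zero.2 (by positivity))))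

end Pool.Agent.Results.MP_59cc96_an.Coincide
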